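import Mathlib

/-!
# Pairs of integers in short squares with a large common divisor
-/

set_option autoImplicit false

namespace Pool.Agent.R431.NO

open Finset

/-- the multiples of `d` in a short interval -/
lemma card_mult (N : ℤ) (X d : ℕ) (hd : 0 < d) :
    ((Ioc N (N + (X : ℤ))).filter (fun A => (d : ℤ) ∣ A)).card ≤ X / d + 1 := by
  have hd' : (0 : ℤ) < d := by exact_mod_cast hd
  have hsub : (Ioc N (N + (X : ℤ))).filter (fun A => (d : ℤ) ∣ A) ⊆
      (Ioc (N / d) ((N + X) / d)).image (fun a => (d : ℤ) * a) := by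
    intro A hA
    rw [mem_filter, mem_Ioc] at hA
    obtain ⟨⟨h1, h2⟩, a, rfl⟩ := hA
    rw [mem_image]
    refine ⟨a, mem_Ioc.2 ⟨?_, ?_⟩, rfl⟩
    · exact Int.ediv_lt_of_lt_mul hd' (by rw [mul_comm]; exact h1)
    · exact Int.le_ediv_of_mul_le hd' (by rw [mul_comm]; exact h2)
  refine (card_le_card hsub).trans (card_image_le.trans ?_)
  rw [Int.card_Ioc]
  have h1 : (d : ℤ) * (N / d) + N % d = N := Int.mul_ediv_add_emod N d
  have h2 := Int.emod_lt_of_pos N hd'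
  have h3 : (d : ℤ) * ((N + X) / d) ≤ N + X := Int.mul_ediv_self_le hd'.ne'
  have h4 : X < d * (X / d + 1) := by
    rw [mul_comm]
    exact Nat.lt_mul_of_div_lt (Nat.lt_succ_self _) hd
  have h4' : (X : ℤ) < d * ((X / d : ℕ) + 1) := by exact_mod_cast h4
  have h5 : (d : ℤ) * ((N + X) / d) < d * (N / d + (X / d : ℕ) + 2) := by
    have e : (d : ℤ) * (N / d + (X / d : ℕ) + 2) = d * (N / d) + d + d * ((X / d : ℕ) + 1) := by
      ring
    rw [e]
    omega
  have h6 : (N + X) / d < N / d + (X / d : ℕ) + 2 := lt_of_mul_lt_mul_left h5 hd'.le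
  generalize (N + (X : ℤ)) / d = q at h6 ⊢
  generalize N / (d : ℤ) = r at h6 ⊢
  generalize X / d = s at h6 ⊢
  omega

/-- a divisor in a given range -/
lemma exists_div {g D0 X : ℕ} (hg : D0 < g) (hD0 : 1 ≤ D0) (hX : D0 ^ 2 ≤ X)
    (hp : ∀ p : ℕ, p.Prime → p ∣ g → p ≤ X) : ∃ d, D0 < d ∧ d ≤ X ∧ d ∣ g := by
  classical
  by_cases h : ∃ p : ℕ, p.Prime ∧ p ∣ g ∧ D0 < p
  · obtain ⟨p, h1, h2, h3⟩ := h
    exact ⟨p, h3, hp p h1 h2, h2⟩
  · have hex : ∃ d, d ∣ g ∧ D0 < d := ⟨g, dvd_rfl, hg⟩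
    obtain ⟨h1, h2⟩ := Nat.find_spec hex
    set d := Nat.find hex with hd
    refine ⟨d, h2, le_trans ?_ hX, h1⟩
    obtain ⟨p, hp1, hp2⟩ := Nat.exists_prime_and_dvd (show d ≠ 1 by omega)
    obtain ⟨e, he⟩ := hp2
    have h3 : p ≤ D0 := by
      by_contra h'
      exact h ⟨p, hp1, (Dvd.intro e he.symm).trans h1, not_le.1 h'⟩
    have h4 : e ≤ D0 := by
      by_contra h'
      have h5 : e < d := by
        rw [he]
        have he0 : 0 < e := by omega
        exact (Nat.lt_mul_iff_one_lt_left he0).2 hp1.one_lt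
      exact Nat.find_min hex h5 ⟨(Dvd.intro_left p he.symm).trans h1, not_le.1 h'⟩
    rw [he, sq]
    exact Nat.mul_le_mul h3 h4

/-- few large prime divisors -/
lemma few_primes {A : ℤ} {X L : ℕ} (hA : A ≠ 0) (hX : 2 ≤ X) (h : A.natAbs ≤ X ^ L) :
    (A.natAbs.primeFactors.filter (fun p => X < p)).card ≤ L := by
  have hA' : A.natAbs ≠ 0 := Int.natAbs_ne_zero.2 hA
  have h1 : X ^ (A.natAbs.primeFactors.filter (fun p => X < p)).card ≤
      ∏ p ∈ A.natAbs.primeFactors.filter (fun p => X < p), p := by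
    rw [← prod_const]
    exact prod_le_prod' fun p hp => (mem_filter.1 hp).2.le
  have h2 : ∏ p ∈ A.natAbs.primeFactors.filter (fun p => X < p), p ≤
      ∏ p ∈ A.natAbs.primeFactors, p :=
    prod_le_prod_of_subset_of_one_le' (filter_subset _ _) fun p hp _ =>
      (Nat.prime_of_mem_primeFactors hp).one_lt.le
  have h3 : ∏ p ∈ A.natAbs.primeFactors, p ≤ A.natAbs :=
    Nat.le_of_dvd (Nat.pos_of_ne_zero hA') (Nat.prod_primeFactors_dvd _)
  exact (Nat.pow_le_pow_iff_right hX).1 (h1.trans (h2.trans (h3.trans h)))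

open Classical in
/-- **pairs with a large common divisor** -/
theorem gcd_count (D0 L : ℕ) (hD0 : 1 ≤ D0) (N1 N2 : ℤ) (X : ℕ) (hX : D0 ^ 2 + 2 ≤ X)
    (h1 : N1.natAbs + X ≤ X ^ L) :
    (((Ioc N1 (N1 + (X : ℤ)) ×ˢ Ioc N2 (N2 + (X : ℤ))).filter (fun t : ℤ × ℤ =>
      t.1 = 0 ∨ t.2 = 0 ∨ D0 < Int.gcd t.1 t.2)).card : ℝ) ≤
      4 * (X : ℝ) ^ 2 / D0 + (2 * L + 2) * X := by
  have hD0r : (1 : ℝ) ≤ D0 := by exact_mod_cast hD0
  set I1 := Ioc N1 (N1 + (X : ℤ)) with hI1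
  set I2 := Ioc N2 (N2 + (X : ℤ)) with hI2
  have c1 : I1.card = X := by rw [hI1, Int.card_Ioc]; omega
  have c2 : I2.card = X := by rw [hI2, Int.card_Ioc]; omega
  set Sa := I1.biUnion (fun A => (A.natAbs.primeFactors.filter (fun p => X < p)).biUnion
    (fun p => (I2.filter (fun B => (p : ℤ) ∣ B)).image (fun B => (A, B)))) with hSa
  set Sb := (Ioc D0 X).biUnion (fun d => (I1.filter (fun A => (d : ℤ) ∣ A)) ×ˢ
    (I2.filter (fun B => (d : ℤ) ∣ B))) with hSb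
  set Sc := I2.image (fun B => ((0 : ℤ), B)) ∪ I1.image (fun A => (A, (0 : ℤ))) with hSc
  have hsub : (I1 ×ˢ I2).filter (fun t : ℤ × ℤ => t.1 = 0 ∨ t.2 = 0 ∨ D0 < Int.gcd t.1 t.2) ⊆
      Sc ∪ (Sa ∪ Sb) := by
    rintro ⟨A, B⟩ ht
    rw [mem_filter, mem_product] at ht
    obtain ⟨⟨hA, hB⟩, h⟩ := ht
    have hA' : A ∈ I1 := hA
    have hB' : B ∈ I2 := hB
    by_cases hA0 : A = 0
    · subst hA0
      exact mem_union_left _ (mem_union_left _ (mem_image.2 ⟨B, hB', rfl⟩))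
    by_cases hB0 : B = 0
    · subst hB0
      exact mem_union_left _ (mem_union_right _ (mem_image.2 ⟨A, hA', rfl⟩))
    rcases h with h | h | h
    · exact absurd h hA0
    · exact absurd h hB0
    · have h' : D0 < Int.gcd A B := h
      apply mem_union_right
      by_cases hp : ∀ p : ℕ, p.Prime → p ∣ Int.gcd A B → p ≤ X
      · obtain ⟨d, e1, e2, e3⟩ := exists_div h' hD0 (by omega) hp
        apply mem_union_right
        rw [hSb, mem_biUnion]
        have e3' : (d : ℤ) ∣ (Int.gcd A B : ℤ) := by exact_mod_cast e3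
        refine ⟨d, mem_Ioc.2 ⟨e1, e2⟩, mem_product.2 ⟨mem_filter.2 ⟨hA', ?_⟩,
          mem_filter.2 ⟨hB', ?_⟩⟩⟩
        · exact e3'.trans (Int.gcd_dvd_left _ _)
        · exact e3'.trans (Int.gcd_dvd_right _ _)
      · push Not at hp
        obtain ⟨p, p1, p2, p3⟩ := hp
        apply mem_union_left
        rw [hSa, mem_biUnion]
        have p2' : (p : ℤ) ∣ (Int.gcd A B : ℤ) := by exact_mod_cast p2
        refine ⟨A, hA', mem_biUnion.2 ⟨p, mem_filter.2 ⟨?_, p3⟩, mem_image.2 ⟨B,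
          mem_filter.2 ⟨hB', p2'.trans (Int.gcd_dvd_right _ _)⟩, rfl⟩⟩⟩
        rw [Nat.mem_primeFactors]
        exact ⟨p1, Int.natCast_dvd.1 (p2'.trans (Int.gcd_dvd_left _ _)), Int.natAbs_ne_zero.2 hA0⟩
  have b3 : (Sc.card : ℝ) ≤ 2 * X := by
    have h2 : Sc.card ≤ X + X := (card_union_le _ _).trans
      (Nat.add_le_add (card_image_le.trans c2.le) (card_image_le.trans c1.le))
    have h3 : (Sc.card : ℝ) ≤ (X + X : ℕ) := by exact_mod_cast h2
    push_cast at h3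
    linarith
  have b1 : (Sa.card : ℝ) ≤ 2 * L * X := by
    have h2 : Sa.card ≤ X * (L * 2) := by
      rw [← c1]
      refine card_biUnion_le_card_mul _ _ _ fun A hA => ?_
      by_cases hA0 : A = 0
      · rw [hA0]
        simp
      have h3 : (A.natAbs.primeFactors.filter (fun p => X < p)).card ≤ L := by
        refine few_primes hA0 (by omega) ?_
        rw [hI1, mem_Ioc] at hA
        have : A.natAbs ≤ N1.natAbs + X := by omega
        exact this.trans h1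
      refine (card_biUnion_le_card_mul _ _ 2 fun p hp => ?_).trans (Nat.mul_le_mul_right _ h3)
      have hp' := (mem_filter.1 hp).2
      refine card_image_le.trans ((card_mult N2 X p (by omega)).trans ?_)
      rw [Nat.div_eq_of_lt hp']
      omega
    have h3 : (Sa.card : ℝ) ≤ (X * (L * 2) : ℕ) := by exact_mod_cast h2
    push_cast at h3
    linarith
  have b2 : (Sb.card : ℝ) ≤ 4 * (X : ℝ) ^ 2 / D0 := by
    have h2 : (Sb.card : ℝ) ≤ ∑ d ∈ Ioc D0 X, (((X / d + 1 : ℕ) : ℝ) ^ 2) := by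
      have h3 : Sb.card ≤ ∑ d ∈ Ioc D0 X, (X / d + 1) ^ 2 := by
        refine card_biUnion_le.trans (sum_le_sum fun d hd => ?_)
        rw [card_product, sq]
        have hd0 : 0 < d := by
          rw [mem_Ioc] at hd
          omega
        exact Nat.mul_le_mul (card_mult N1 X d hd0) (card_mult N2 X d hd0)
      exact_mod_cast h3
    refine h2.trans ?_
    have h4 : ∑ d ∈ Ioc D0 X, (((X / d + 1 : ℕ) : ℝ) ^ 2) ≤
        4 * (X : ℝ) ^ 2 * ∑ d ∈ Ioc D0 X, ((d : ℝ) ^ 2)⁻¹ := by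
      rw [mul_sum]
      refine sum_le_sum fun d hd => ?_
      rw [mem_Ioc] at hd
      have hd0 : (0 : ℝ) < d := by
        have : 0 < d := by omega
        exact_mod_cast this
      have h5 : ((X / d : ℕ) : ℝ) ≤ (X : ℝ) / d := Nat.cast_div_le
      have h6 : (1 : ℝ) ≤ (X : ℝ) / d := by
        rw [le_div_iff₀ hd0, one_mul]
        exact_mod_cast hd.2
      have h7 : ((X / d + 1 : ℕ) : ℝ) ≤ 2 * ((X : ℝ) / d) := by
        push_cast
        linarith
      calc (((X / d + 1 : ℕ) : ℝ) ^ 2) ≤ (2 * ((X : ℝ) / d)) ^ 2 := by gcongr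
        _ = 4 * (X : ℝ) ^ 2 * ((d : ℝ) ^ 2)⁻¹ := by
          rw [mul_pow, div_pow, div_eq_mul_inv]
          ring
    refine h4.trans ?_
    have hDX : D0 ≤ X := by nlinarith
    have h6 : ∑ g ∈ Ioc D0 X, ((g : ℝ) ^ 2)⁻¹ ≤ (D0 : ℝ)⁻¹ - (X : ℝ)⁻¹ :=
      sum_Ioc_inv_sq_le_sub (by omega) hDX
    have h7 : ∑ g ∈ Ioc D0 X, ((g : ℝ) ^ 2)⁻¹ ≤ (D0 : ℝ)⁻¹ := by
      have : (0 : ℝ) ≤ (X : ℝ)⁻¹ := by positivity
      linarith
    rw [div_eq_mul_inv]
    exact mul_le_mul_of_nonneg_left h7 (by positivity)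
  have h9 : ((((I1 ×ˢ I2).filter (fun t : ℤ × ℤ =>
      t.1 = 0 ∨ t.2 = 0 ∨ D0 < Int.gcd t.1 t.2)).card : ℕ) : ℝ) ≤ Sc.card + (Sa.card + Sb.card) := by
    exact_mod_cast (card_le_card hsub).trans ((card_union_le _ _).trans
      (Nat.add_le_add_left (card_union_le _ _) _))
  linarith

end Pool.Agent.R431.NO
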