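import Pool.Agent.R431.NO.Cnt
import Pool.Agent.R431.NO.Gcd

/-!
# The normal order of the 2-power torsion of `Ш` of the 2-isogenous curves: final forms
-/

set_option autoImplicit false
set_option linter.unusedSectionVars false

namespace Pool.Agent.R431.NO

open Finset WeierstrassCurve

open Pool.Agent.TH841.SH.D

open Pool.Agent.TH841.LS (WI big_loglog)

open Pool.Agent.TH841.PT (EQ)

open Pool.Agent.TH841.NO (SQ fo)

open Pool.Agent.Y676.IS (tri)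

/-- **almost all pairs in every short square** -/
theorem allshort (δ ε : ℝ) (L : ℕ) (hδ : 0 < δ) (hε : 0 < ε) :
    ∃ R X0 : ℕ, ∀ (N1 N2 : ℤ) (X : ℕ), X0 ≤ X → N1.natAbs ≤ X ^ L → N2.natAbs ≤ X ^ L →
      ∃ T : Finset (ℤ × ℤ), (T.card : ℝ) ≤ ε * X ^ 2 ∧
        ∀ t ∈ Ioc N1 (N1 + (X : ℤ)) ×ˢ Ioc N2 (N2 + (X : ℤ)), t ∉ T → ∀ i,
        OkS ((3 / 2 - δ) * Real.log (Real.log X)) ((3 / 2 + δ) * Real.log (Real.log X)) R
          (tri i t.1 t.2) := by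
  classical
  have hm : 0 < min δ 1 := lt_min hδ one_pos
  obtain ⟨D0, hD0, hD1⟩ : ∃ D0 : ℕ, 16 / ε ≤ D0 ∧ 1 ≤ D0 := by
    obtain ⟨n, hn⟩ := exists_nat_ge (16 / ε)
    exact ⟨n + 1, hn.trans (by push_cast; linarith), by omega⟩
  have hD0r : (0 : ℝ) < D0 := by
    have : 0 < D0 := by omega
    exact_mod_cast this
  have ha := fun d : ℕ => pairs ((d + 1 : ℕ) : ℤ) (by positivity) (min δ 1 / 2)
    (ε / (8 * D0)) (L + 1) (by positivity) (by positivity)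
  choose R X0 h using ha
  obtain ⟨M, hM⟩ := scale δ hδ (2 * D0) (by omega)
  obtain ⟨K, hK⟩ := exists_nat_ge (4 * (2 * (L + 2 : ℝ) + 2) / ε)
  refine ⟨∑ d ∈ range D0, R d, ∑ d ∈ range D0, D0 * (X0 d + 1) + M + D0 * (D0 ^ L + 1) + K +
    D0 ^ 2 + D0 + 2, fun N1 N2 X hX hN1 hN2 => ?_⟩
  have hX2 : 2 ≤ X := by omega
  have hXd : ∀ d ∈ range D0, D0 * (X0 d + 1) ≤ X := fun d hd => by
    have h1 : D0 * (X0 d + 1) ≤ ∑ d ∈ range D0, D0 * (X0 d + 1) :=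
      single_le_sum (f := fun d => D0 * (X0 d + 1)) (fun _ _ => Nat.zero_le _) hd
    omega
  have hRd : ∀ d ∈ range D0, R d ≤ ∑ d ∈ range D0, R d := fun d hd =>
    single_le_sum (f := fun d => R d) (fun _ _ => Nat.zero_le _) hd
  have hdle : ∀ d ∈ range D0, d + 1 ≤ D0 := fun d hd => by
    rw [mem_range] at hd
    omega
  have hY : ∀ d ∈ range D0, ∀ K', D0 * K' ≤ X → K' ≤ X / (d + 1) := by
    intro d hd K' hK'
    rw [Nat.le_div_iff_mul_le (by omega)]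
    refine le_trans ?_ hK'
    rw [mul_comm]
    exact Nat.mul_le_mul_right _ (hdle d hd)
  -- the quotients of the corners
  have hNd : ∀ d ∈ range D0, ∀ N : ℤ, N.natAbs ≤ X ^ L →
      (N / ((d + 1 : ℕ) : ℤ)).natAbs ≤ (X / (d + 1) + 1) ^ (L + 1) := by
    intro d hd N hN
    obtain ⟨Y, hYe⟩ : ∃ Y, Y = X / (d + 1) + 1 := ⟨_, rfl⟩
    have q1 : D0 ^ L + 1 ≤ Y := by
      have := hY d hd (D0 ^ L + 1) (by omega)
      omega
    have q2 : X < (d + 1) * Y := by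
      rw [mul_comm, hYe]
      exact Nat.lt_mul_of_div_lt (Nat.lt_succ_self _) (by omega)
    have q3 : X ≤ D0 * Y := q2.le.trans (Nat.mul_le_mul_right _ (hdle d hd))
    have q4 : X ^ L ≤ D0 ^ L * Y ^ L := by
      rw [← mul_pow]
      exact Nat.pow_le_pow_left q3 L
    have q5 : (N / ((d + 1 : ℕ) : ℤ)).natAbs ≤ N.natAbs + 1 := by
      have r0 : (0 : ℤ) < ((d + 1 : ℕ) : ℤ) := by positivity
      have r1 : ((d + 1 : ℕ) : ℤ) * (N / ((d + 1 : ℕ) : ℤ)) + N % ((d + 1 : ℕ) : ℤ) = N :=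
        Int.mul_ediv_add_emod N _
      have r2 := Int.emod_lt_of_pos N r0
      have r3 := Int.emod_nonneg N r0.ne'
      have r4 : (1 : ℤ) ≤ ((d + 1 : ℕ) : ℤ) := by
        push_cast
        omega
      generalize ((d + 1 : ℕ) : ℤ) = e at r0 r1 r2 r3 r4 ⊢
      generalize N / e = q at r1 ⊢
      generalize N % e = r at r1 r2 r3
      rcases le_or_gt 0 q with hq | hq
      · have : q ≤ N := by nlinarith
        omega
      · have : N ≤ q + 1 := by nlinarith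
        have h' : N - 1 ≤ q ∨ N ≤ q + 1 := Or.inr this
        have h2 : -((N.natAbs : ℤ) + 1) ≤ q := by
          have h3 : e * q ≥ N - e + 1 := by omega
          have h4 : -((N.natAbs : ℤ)) ≤ N := by omega
          by_contra hcon
          have h5 : q < -((N.natAbs : ℤ) + 1) := not_le.1 hcon
          have h6 : q + 1 ≤ -((N.natAbs : ℤ) + 1) := by omega
          have h7 : e * (q + 1) ≥ N + 1 := by nlinarith
          have h8 : e * (q + 1) ≤ 1 * (q + 1) := by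
            have : q + 1 ≤ 0 := by omega
            nlinarith
          omega
        omega
    have q6 : 1 ≤ Y ^ L := Nat.one_le_pow _ _ (by omega)
    rw [← hYe]
    calc (N / ((d + 1 : ℕ) : ℤ)).natAbs ≤ X ^ L + 1 := q5.trans (by omega)
      _ ≤ D0 ^ L * Y ^ L + Y ^ L := Nat.add_le_add q4 q6
      _ = Y ^ L * (D0 ^ L + 1) := by ring
      _ ≤ Y ^ L * Y := Nat.mul_le_mul_left _ q1
      _ = Y ^ (L + 1) := (pow_succ _ _).symm
  have hT : ∀ d, d ∈ range D0 → _ := fun d hd => h d (N1 / ((d + 1 : ℕ) : ℤ))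
    (N2 / ((d + 1 : ℕ) : ℤ)) (X / (d + 1) + 1)
    (by have := hY d hd (X0 d + 1) (hXd d hd); omega) (hNd d hd N1 hN1) (hNd d hd N2 hN2)
  choose! T hT1 hT2 using hT
  set I1 := Ioc N1 (N1 + (X : ℤ)) with hI1
  set I2 := Ioc N2 (N2 + (X : ℤ)) with hI2
  set Bg := (I1 ×ˢ I2).filter (fun t : ℤ × ℤ => t.1 = 0 ∨ t.2 = 0 ∨ D0 < Int.gcd t.1 t.2) with hBg
  set Bu := (range D0).biUnion (fun d => (T d).image (fun t : ℕ × ℕ =>
    (((d + 1 : ℕ) : ℤ) * (N1 / ((d + 1 : ℕ) : ℤ) + (t.1 : ℤ)),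
      ((d + 1 : ℕ) : ℤ) * (N2 / ((d + 1 : ℕ) : ℤ) + (t.2 : ℤ))))) with hBu
  refine ⟨Bg ∪ Bu, ?_, ?_⟩
  · have h1 : (Bg.card : ℝ) ≤ 4 * (X : ℝ) ^ 2 / D0 + (2 * (L + 2 : ℕ) + 2) * X := by
      refine gcd_count D0 (L + 2) hD1 N1 N2 X (by omega) ?_
      have e1 : X ^ (L + 2) = X ^ L * (X * X) := by ring
      have e2 : 1 ≤ X ^ L := Nat.one_le_pow _ _ (by omega)
      have e3 : X ≤ X ^ L * X := Nat.le_mul_of_pos_left _ (by omega)
      have e4 : X ^ L ≤ X ^ L * X := Nat.le_mul_of_pos_right _ (by omega)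
      calc N1.natAbs + X ≤ X ^ L * X + X ^ L * X := by omega
        _ = X ^ L * X * 2 := by ring
        _ ≤ X ^ L * X * X := Nat.mul_le_mul_left _ hX2
        _ = X ^ (L + 2) := by rw [e1]; ring
    have h2 : (Bu.card : ℝ) ≤ ε / 2 * X ^ 2 := by
      have h3 : (Bu.card : ℝ) ≤ ∑ d ∈ range D0, ((T d).card : ℝ) := by
        have h5 : Bu.card ≤ ∑ d ∈ range D0, (T d).card :=
          card_biUnion_le.trans (sum_le_sum fun d _ => card_image_le)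
        exact_mod_cast h5
      refine h3.trans ?_
      have h6 : ∀ d ∈ range D0, ((T d).card : ℝ) ≤ ε / (2 * D0) * X ^ 2 := by
        intro d hd
        refine (hT1 d hd).trans ?_
        have h7 : ((X / (d + 1) + 1 : ℕ) : ℝ) ≤ 2 * X := by
          have : X / (d + 1) + 1 ≤ 2 * X := by
            have := Nat.div_le_self X (d + 1)
            omega
          exact_mod_cast this
        calc ε / (8 * D0) * ((X / (d + 1) + 1 : ℕ) : ℝ) ^ 2 ≤ ε / (8 * D0) * (2 * X) ^ 2 := by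
              gcongr
          _ = ε / (2 * D0) * X ^ 2 := by
              field_simp
              ring
      refine (sum_le_sum h6).trans (le_of_eq ?_)
      rw [sum_const, card_range, nsmul_eq_mul]
      field_simp
    have h8 : 4 * (X : ℝ) ^ 2 / D0 ≤ ε / 4 * X ^ 2 := by
      rw [div_le_iff₀ hε] at hD0
      rw [div_le_iff₀ hD0r]
      have h9 : (0 : ℝ) ≤ (X : ℝ) ^ 2 := by positivity
      nlinarith
    have h9 : (2 * ((L + 2 : ℕ) : ℝ) + 2) * X ≤ ε / 4 * X ^ 2 := by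
      have h10 : 4 * (2 * (L + 2 : ℝ) + 2) / ε ≤ X := by
        refine hK.trans ?_
        have : K ≤ X := by omega
        exact_mod_cast this
      rw [div_le_iff₀ hε] at h10
      have h11 : (0 : ℝ) ≤ X := Nat.cast_nonneg _
      push_cast
      nlinarith
    have h10 : (((Bg ∪ Bu).card : ℕ) : ℝ) ≤ (Bg.card : ℝ) + (Bu.card : ℝ) := by
      exact_mod_cast card_union_le _ _
    linarith
  · intro t ht hn i
    rw [mem_union, not_or] at hn
    obtain ⟨n1, n2⟩ := hn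
    have n3 : ¬ (t.1 = 0 ∨ t.2 = 0 ∨ D0 < Int.gcd t.1 t.2) := fun h' =>
      n1 (mem_filter.2 ⟨ht, h'⟩)
    push Not at n3
    obtain ⟨z1, z2, z3⟩ := n3
    rw [mem_product, hI1, hI2, mem_Ioc, mem_Ioc] at ht
    obtain ⟨⟨a1, a2⟩, a3, a4⟩ := ht
    have hg : 0 < Int.gcd t.1 t.2 := Int.gcd_pos_of_ne_zero_left _ z1
    obtain ⟨d, hd⟩ : ∃ d, Int.gcd t.1 t.2 = d + 1 := ⟨Int.gcd t.1 t.2 - 1, by omega⟩
    have hdr : d ∈ range D0 := mem_range.2 (by omega)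
    obtain ⟨a, ha⟩ : ((d + 1 : ℕ) : ℤ) ∣ t.1 := by
      rw [← hd]
      exact Int.gcd_dvd_left _ _
    obtain ⟨b, hb⟩ : ((d + 1 : ℕ) : ℤ) ∣ t.2 := by
      rw [← hd]
      exact Int.gcd_dvd_right _ _
    have hcop : IsCoprime a b := by
      rw [Int.isCoprime_iff_gcd_eq_one]
      have h1 : Int.gcd t.1 t.2 = (d + 1) * Int.gcd a b := by
        rw [ha, hb, Int.gcd_mul_left, Int.natAbs_natCast]
      rw [hd] at h1
      exact Nat.eq_of_mul_eq_mul_left (Nat.succ_pos d) (by rw [mul_one]; exact h1.symm)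
    have hd0 : (0 : ℤ) < ((d + 1 : ℕ) : ℤ) := by positivity
    -- the position in the box
    have hbox : ∀ N s x : ℤ, s = ((d + 1 : ℕ) : ℤ) * x → N < s → s ≤ N + X →
        1 ≤ (x - N / ((d + 1 : ℕ) : ℤ)).toNat ∧
        (x - N / ((d + 1 : ℕ) : ℤ)).toNat ≤ X / (d + 1) + 1 ∧
        N / ((d + 1 : ℕ) : ℤ) + (((x - N / ((d + 1 : ℕ) : ℤ)).toNat : ℕ) : ℤ) = x := by
      intro N s x hs h1 h2
      have r1 : ((d + 1 : ℕ) : ℤ) * (N / ((d + 1 : ℕ) : ℤ)) + N % ((d + 1 : ℕ) : ℤ) = N :=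
        Int.mul_ediv_add_emod N _
      have r2 := Int.emod_lt_of_pos N hd0
      have r3 := Int.emod_nonneg N hd0.ne'
      have h4 : X < (d + 1) * (X / (d + 1) + 1) := by
        rw [mul_comm]
        exact Nat.lt_mul_of_div_lt (Nat.lt_succ_self _) (Nat.succ_pos d)
      have h4' : (X : ℤ) < ((d + 1 : ℕ) : ℤ) * ((X / (d + 1) : ℕ) + 1) := by exact_mod_cast h4
      have h5 : N / ((d + 1 : ℕ) : ℤ) < x := by
        have : ((d + 1 : ℕ) : ℤ) * (N / ((d + 1 : ℕ) : ℤ)) < ((d + 1 : ℕ) : ℤ) * x := by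
          rw [← hs]
          linarith
        exact lt_of_mul_lt_mul_left this hd0.le
      have h6 : x < N / ((d + 1 : ℕ) : ℤ) + (X / (d + 1) : ℕ) + 2 := by
        have : ((d + 1 : ℕ) : ℤ) * x < ((d + 1 : ℕ) : ℤ) *
            (N / ((d + 1 : ℕ) : ℤ) + (X / (d + 1) : ℕ) + 2) := by
          have e : ((d + 1 : ℕ) : ℤ) * (N / ((d + 1 : ℕ) : ℤ) + (X / (d + 1) : ℕ) + 2) =
              ((d + 1 : ℕ) : ℤ) * (N / ((d + 1 : ℕ) : ℤ)) + ((d + 1 : ℕ) : ℤ) +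
              ((d + 1 : ℕ) : ℤ) * ((X / (d + 1) : ℕ) + 1) := by ring
          rw [e, ← hs]
          linarith
        exact lt_of_mul_lt_mul_left this hd0.le
      generalize N / ((d + 1 : ℕ) : ℤ) = q at h5 h6 ⊢
      generalize X / (d + 1) = r at h6 ⊢
      omega
    obtain ⟨p1, p2, p3⟩ := hbox N1 t.1 a ha a1 a2
    obtain ⟨p4, p5, p6⟩ := hbox N2 t.2 b hb a3 a4
    obtain ⟨x, hx⟩ : ∃ x : ℕ × ℕ, x = ((a - N1 / ((d + 1 : ℕ) : ℤ)).toNat,
      (b - N2 / ((d + 1 : ℕ) : ℤ)).toNat) := ⟨_, rfl⟩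
    have x1 : x.1 = (a - N1 / ((d + 1 : ℕ) : ℤ)).toNat := by rw [hx]
    have x2 : x.2 = (b - N2 / ((d + 1 : ℕ) : ℤ)).toNat := by rw [hx]
    rw [← x1] at p1 p2 p3
    rw [← x2] at p4 p5 p6
    have hnT : x ∉ T d := by
      intro h'
      apply n2
      rw [hBu, mem_biUnion]
      refine ⟨d, hdr, ?_⟩
      rw [mem_image]
      refine ⟨x, h', Prod.ext ?_ ?_⟩
      · show ((d + 1 : ℕ) : ℤ) * (N1 / ((d + 1 : ℕ) : ℤ) + (x.1 : ℤ)) = t.1
        rw [p3, ← ha]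
      · show ((d + 1 : ℕ) : ℤ) * (N2 / ((d + 1 : ℕ) : ℤ) + (x.2 : ℤ)) = t.2
        rw [p6, ← hb]
    have h11 := hT2 d hdr x (by
      rw [mem_product, mem_Icc, mem_Icc]
      exact ⟨⟨p1, p2⟩, p4, p5⟩) (by
      rw [p3, p6]
      exact hcop) hnT i
    rw [p3, p6, ← ha, ← hb] at h11
    have q0 : 1 ≤ X / (d + 1) := hY d hdr 1 (by omega)
    have q1 : X / (d + 1) + 1 ≤ 2 * D0 * X := by
      have := Nat.div_le_self X (d + 1)
      have h12 : 2 * X ≤ 2 * D0 * X := by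
        have : 2 * 1 ≤ 2 * D0 := by omega
        exact Nat.mul_le_mul_right _ (by omega)
      omega
    have q2 : X < (d + 1) * (X / (d + 1) + 1) := by
      rw [mul_comm]
      exact Nat.lt_mul_of_div_lt (Nat.lt_succ_self _) (Nat.succ_pos d)
    have q3 : (d + 1) * (X / (d + 1) + 1) ≤ 2 * D0 * (X / (d + 1) + 1) :=
      Nat.mul_le_mul_right _ (by have := hdle d hdr; omega)
    obtain ⟨s1, s2⟩ := hM X (X / (d + 1) + 1) (by omega) (q2.le.trans q3) q1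
    exact h11.mono s1 s2 (hRd d hdr)

/-- one 2-isogenous curve -/
theorem typ1 {lo hi : ℝ} {R : ℕ} {p : ℤ × ℤ} (h : OkS lo hi R p) :
    rk (WI p.1 p.2) ≤ R ∧ ∀ j : ℕ, 1 ≤ j →
      {x : Sha (WI p.1 p.2) | (2 ^ j) • x = 0}.Finite ∧
      lo ≤ Real.logb 2 ({x : Sha (WI p.1 p.2) | (2 ^ j) • x = 0}.ncard) ∧
      Real.logb 2 ({x : Sha (WI p.1 p.2) | (2 ^ j) • x = 0}.ncard) ≤
        hi + ((R + 1 : ℕ) : ℝ) * j ∧
      {y : Sha (WI p.1 p.2) | ∃ x, (2 ^ j) • x = 0 ∧ y = x + x}.ncard ≤ 2 ^ (R * j) := by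
  refine ⟨?_, fun j hj => ?_⟩
  · obtain ⟨g1, g2, g3, g4, g5⟩ := h
    refine (rk_WI_le g3 g1 g2).trans ?_
    obtain ⟨k1, k2⟩ := g4 1 le_rfl
    rw [mul_one, mul_one] at k2
    have hpos : 0 < {x : Sha (EQ p.1 p.2) | (2 ^ 1) • x = 0}.ncard := by
      rw [Set.ncard_pos k1]
      exact ⟨0, smul_zero _⟩
    exact (Nat.pow_le_pow_iff_right (by norm_num : 1 < 2)).1
      ((Nat.le_mul_of_pos_right _ hpos).trans k2)
  · exact one_iso Pool.Agent.Y497.IS.lcb Pool.Agent.Y500.IS.lqu Pool.Agent.Y500.IS.sqf h j hj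

/-- **one pair**: the curve and its three 2-isogenous curves -/
theorem typ {lo hi : ℝ} {R : ℕ} {A B : ℤ} (h : ∀ i, OkS lo hi R (tri i A B)) :
    A ≠ 0 ∧ B ≠ 0 ∧ A ≠ B ∧
    (∀ j : ℕ, 1 ≤ j → {x : Sha (EQ A B) | (2 ^ j) • x = 0}.Finite ∧
      2 ^ (rk (EQ A B) * j) * {x : Sha (EQ A B) | (2 ^ j) • x = 0}.ncard ≤ 2 ^ (R * j)) ∧
    ∀ i : Fin 3, rk (WI (tri i A B).1 (tri i A B).2) ≤ R ∧ ∀ j : ℕ, 1 ≤ j →
      {x : Sha (WI (tri i A B).1 (tri i A B).2) | (2 ^ j) • x = 0}.Finite ∧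
      lo ≤ Real.logb 2 ({x : Sha (WI (tri i A B).1 (tri i A B).2) | (2 ^ j) • x = 0}.ncard) ∧
      Real.logb 2 ({x : Sha (WI (tri i A B).1 (tri i A B).2) | (2 ^ j) • x = 0}.ncard) ≤
        hi + ((R + 1 : ℕ) : ℝ) * j ∧
      {y : Sha (WI (tri i A B).1 (tri i A B).2) | ∃ x, (2 ^ j) • x = 0 ∧ y = x + x}.ncard ≤
        2 ^ (R * j) := by
  obtain ⟨h1, h2, h3, h4, h5⟩ := h 0
  exact ⟨h1, h2, h3, h4, fun i => typ1 (h i)⟩

end Pool.Agent.R431.NO
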