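import Pool.Agent.R431.NO.Alg

/-!
# The rank of a 2-isogenous curve, and one curve with its 2-isogenous curves
-/

set_option autoImplicit false
set_option linter.unusedSectionVars false

namespace Pool.Agent.R431.NO

open WeierstrassCurve

open Pool.Agent.TH841.SH.D

open Pool.Agent.TH841.LS (WI LocI T0 coc)

open Pool.Agent.TH841.PT (EQ isR_EQ)

open Pool.Agent.TH841.NO (SQ fo)

open Pool.Agent.Y676.IS

open Pool.Agent.H437R2.Man.MW (crv pt_fg)

lemma finrank_le_of_ker {A B : Type} [AddCommGroup A] [AddCommGroup B] (hB : AddGroup.FG B)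
    (f : A →+ B) (hk : ∀ x, f x = 0 → ∃ n : ℕ, n ≠ 0 ∧ n • x = 0) :
    Module.finrank ℤ A ≤ Module.finrank ℤ B := by
  have : Module.Finite ℤ B := Module.Finite.iff_addGroup_fg.2 hB
  set g : A →ₗ[ℤ] B := f.toIntLinearMap with hg
  have h1 : Module.rank ℤ (LinearMap.ker g) = 0 := by
    rw [rank_eq_zero_iff]
    intro x
    obtain ⟨n, hn, hx⟩ := hk x.1 (by
      have := x.2
      rw [LinearMap.mem_ker] at this
      exact this)
    refine ⟨n, by exact_mod_cast hn, ?_⟩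
    apply Subtype.ext
    simpa using hx
  have h2 := LinearMap.rank_range_add_rank_ker g
  rw [h1, add_zero] at h2
  have h3 : Module.finrank ℤ A = Module.finrank ℤ (LinearMap.range g) := by
    unfold Module.finrank
    rw [h2]
  rw [h3]
  exact Submodule.finrank_le _

lemma fr_aux (W W' : WeierstrassCurve ℚ) (h : W' = W) (d d' : DecidableEq ℚ) :
    @Module.finrank ℤ W'.toAffine.Point _
      (@Affine.Point.instAddCommGroup ℚ _ W'.toAffine d').toAddCommMonoid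
      (@AddCommGroup.toIntModule _ (@Affine.Point.instAddCommGroup ℚ _ W'.toAffine d')) =
    @Module.finrank ℤ W.toAffine.Point _
      (@Affine.Point.instAddCommGroup ℚ _ W.toAffine d).toAddCommMonoid
      (@AddCommGroup.toIntModule _ (@Affine.Point.instAddCommGroup ℚ _ W.toAffine d)) := by
  subst h
  have : d' = d := Subsingleton.elim _ _
  subst this
  rfl

lemma fr_pt (W : WeierstrassCurve ℚ) :
    Module.finrank ℤ (Pt W ℚ) = rk W :=
  fr_aux W (W.baseChange ℚ) (bcQ W) inferInstance (Classical.decEq ℚ)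

lemma fg_aux (W W' : WeierstrassCurve ℚ) (h : W' = W) (d d' : DecidableEq ℚ)
    (hf : @AddGroup.FG W.toAffine.Point
      (@Affine.Point.instAddCommGroup ℚ _ W.toAffine d).toAddGroup) :
    @AddGroup.FG W'.toAffine.Point
      (@Affine.Point.instAddCommGroup ℚ _ W'.toAffine d').toAddGroup := by
  subst h
  have : d' = d := Subsingleton.elim _ _
  subst this
  exact hf

/-- the group of the rational points is finitely generated -/
lemma fg_EQ {A B : ℤ} (h : A ≠ B) (hA : A ≠ 0) (hB : B ≠ 0) :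
    AddGroup.FG (EQ A B).toAffine.Point := by
  have hW : EQ A B = crv (-((0 : ℤ) : ℚ)) (-(A : ℚ)) (-(B : ℚ)) := by
    apply WeierstrassCurve.ext
    · rfl
    · show -((A : ℚ) + B) = -((0 : ℤ) : ℚ) + -(A : ℚ) + -(B : ℚ)
      push_cast
      ring
    · rfl
    · show (A : ℚ) * B = -((0 : ℤ) : ℚ) * -(A : ℚ) + -((0 : ℤ) : ℚ) * -(B : ℚ) + -(A : ℚ) * -(B : ℚ)
      push_cast
      ring
    · show (0 : ℚ) = -((0 : ℤ) : ℚ) * -(A : ℚ) * -(B : ℚ)
      push_cast
      ring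
  rw [hW]
  refine pt_fg ?_ ?_ ?_
  · intro h0
    apply hA
    have := neg_injective h0
    exact_mod_cast this.symm
  · intro h0
    apply hB
    have := neg_injective h0
    exact_mod_cast this.symm
  · intro h0
    apply h
    have := neg_injective h0
    exact_mod_cast this

/-- the rank of the isogenous curve -/
theorem rk_WI_le {A B : ℤ} (h : A ≠ B) (hA : A ≠ 0) (hB : B ≠ 0) :
    rk (WI A B) ≤ rk (EQ A B) := by
  obtain ⟨ψ, φ, h1, h2, h3⟩ := exists_NH h hA hB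
  rw [← fr_pt, ← fr_pt]
  apply finrank_le_of_ker (fg_aux _ _ (bcQ (EQ A B)) inferInstance (Classical.decEq ℚ)
    (fg_EQ h hA hB)) (ψ.f ℚ)
  intro x hx
  refine ⟨2, two_ne_zero, ?_⟩
  rw [two_nsmul, ← h1, hx, map_zero]

/-- the data of one curve: `lo ≤ #`, `≤ hi` -/
def OkS (lo hi : ℝ) (R : ℕ) (p : ℤ × ℤ) : Prop :=
  p.1 ≠ 0 ∧ p.2 ≠ 0 ∧ p.1 ≠ p.2 ∧
  (∀ j : ℕ, 1 ≤ j → {x : Sha (EQ p.1 p.2) | (2 ^ j) • x = 0}.Finite ∧
    2 ^ (rk (EQ p.1 p.2) * j) * {x : Sha (EQ p.1 p.2) | (2 ^ j) • x = 0}.ncard ≤ 2 ^ (R * j)) ∧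
  (fo (-(p.1 + p.2)) (p.1 * p.2) : ℝ) ≤ hi ∧
  ∃ k : ℕ, lo ≤ k ∧ ∃ φ : (Fin k → ZMod 2) →+ Sha (WI p.1 p.2), Function.Injective φ

/-- the torsion of the Tate-Shafarevich group of the isogenous curve -/
theorem one_iso (hlcb : S_LCB) (hlqu : S_LQU) (hsqf : S_SQF) {lo hi : ℝ} {R : ℕ} {A B : ℤ}
    (h : OkS lo hi R (A, B)) (j : ℕ) (hj : 1 ≤ j) :
    {x : Sha (WI A B) | (2 ^ j) • x = 0}.Finite ∧
    lo ≤ Real.logb 2 ({x : Sha (WI A B) | (2 ^ j) • x = 0}.ncard) ∧
    Real.logb 2 ({x : Sha (WI A B) | (2 ^ j) • x = 0}.ncard) ≤ hi + ((R + 1 : ℕ) : ℝ) * j ∧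
    {y : Sha (WI A B) | ∃ x, (2 ^ j) • x = 0 ∧ y = x + x}.ncard ≤ 2 ^ (R * j) := by
  obtain ⟨hA, hB, hAB, hS, hf, k, hk, φ, hφ⟩ := h
  obtain ⟨s1, s2⟩ := hS j hj
  have s3 : {x : Sha (EQ A B) | (2 ^ j) • x = 0}.ncard ≤ 2 ^ (R * j) :=
    (Nat.le_mul_of_pos_left _ (by positivity)).trans s2
  obtain ⟨t1, t2, t3⟩ := tor_card hlcb hlqu hsqf hAB hA hB j s1
  have hpos : 0 < {x : Sha (WI A B) | (2 ^ j) • x = 0}.ncard := by
    rw [Set.ncard_pos t1]
    exact ⟨0, smul_zero _⟩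
  refine ⟨t1, ?_, ?_, t3.trans s3⟩
  · have h1 : 2 ^ k ≤ {x : Sha (WI A B) | (2 ^ j) • x = 0}.ncard := by
      have h2 : (Set.range φ).ncard = 2 ^ k := by
        rw [← Set.image_univ, Set.ncard_image_of_injective _ hφ, Set.ncard_univ]
        simp
      rw [← h2]
      refine Set.ncard_le_ncard ?_ t1
      rintro _ ⟨y, rfl⟩
      change (2 ^ j) • φ y = 0
      rw [← map_nsmul]
      have : (2 ^ j) • y = 0 := by
        obtain ⟨i, rfl⟩ : ∃ i, j = i + 1 := ⟨j - 1, by omega⟩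
        rw [pow_succ, mul_smul]
        have h3 : 2 • y = 0 := by
          funext i
          rw [Pi.smul_apply, Pi.zero_apply, two_nsmul]
          exact CharTwo.add_self_eq_zero _
        rw [h3, smul_zero]
      rw [this, map_zero]
    have h2 : (2 : ℝ) ^ (k : ℝ) ≤ ({x : Sha (WI A B) | (2 ^ j) • x = 0}.ncard : ℝ) := by
      rw [Real.rpow_natCast]
      exact_mod_cast h1
    exact hk.trans ((Real.le_logb_iff_rpow_le (by norm_num) (by exact_mod_cast hpos)).2 h2)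
  · have hq : (SQ (-(A + B)) (A * B)).ncard < 2 ^ (fo (-(A + B)) (A * B) + 1) :=
      Nat.lt_pow_succ_log_self (by norm_num) _
    have h1 : {x : Sha (WI A B) | (2 ^ j) • x = 0}.ncard ≤
        2 ^ (fo (-(A + B)) (A * B) + 1 + R * j) := by
      rw [pow_add]
      exact t2.trans (Nat.mul_le_mul hq.le s3)
    have h2 : ({x : Sha (WI A B) | (2 ^ j) • x = 0}.ncard : ℝ) ≤
        (2 : ℝ) ^ (((fo (-(A + B)) (A * B) + 1 + R * j : ℕ)) : ℝ) := by
      rw [Real.rpow_natCast]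
      exact_mod_cast h1
    have h3 := (Real.logb_le_iff_le_rpow (by norm_num) (by exact_mod_cast hpos)).2 h2
    refine h3.trans ?_
    have hj' : (1 : ℝ) ≤ j := by exact_mod_cast hj
    have hf' : (fo (-(A + B)) (A * B) : ℝ) ≤ hi := hf
    push_cast
    nlinarith

end Pool.Agent.R431.NO
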