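import Pool.Agent.Y676.IS.Fin

/-!
# The 2-power torsion of the Tate-Shafarevich group of a 2-isogenous curve

`E = EQ A B : y² = x (x - A) (x - B)`, `E' = WI A B = E / ⟨(0, 0)⟩`. The kernel of
`Ш(E') → Ш(E)` comes from the everywhere locally solvable quartics.
-/

set_option autoImplicit false
set_option linter.unusedSectionVars false

namespace Pool.Agent.R431.NO

open WeierstrassCurve

open Pool.Agent.TH841.SH.D

open Pool.Agent.TH841.LS (WI LocI T0 coc)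

open Pool.Agent.TH841.PT (EQ isR_EQ)

open Pool.Agent.TH841.NO (SQ fo)

open Pool.Agent.Y676.IS

section

attribute [-instance] DivisionRing.toRatAlgebra

/-- every class in the kernel of the isogeny is the class of a cocycle `χ_d T` -/
theorem ker0 {A B : ℤ} (h : A ≠ B) (hA : A ≠ 0) (hB : B ≠ 0)
    (ψ : NH (WI A B) (EQ A B)) (φ : NH (EQ A B) (WI A B))
    (h2 : ∀ (L : Type) [Field L] [Algebra ℚ L] (P : Pt (EQ A B) L), ψ.f L (φ.f L P) = P + P)
    (h3 : ∀ (L : Type) [Field L] [Algebra ℚ L] (P : Pt (WI A B) L),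
      ψ.f L P = 0 → P = 0 ∨ P = T0 h L)
    (x : Sha (WI A B)) (hz : ψ.sha x = 0) :
    ∃ d : ℤ, Squarefree d ∧ ∃ hd : coc h d ∈ shaCoc (WI A B),
      cls (WI A B) ⟨coc h d, hd⟩ = x := by
  obtain ⟨c, rfl⟩ := cls_surj x
  rw [sha_cls, cls_zero_iff] at hz
  obtain ⟨Q, hQ⟩ := hz
  obtain ⟨R, hR⟩ := div2 h hA hB Q
  have hP : ψ.f _ (φ.f _ R) = Q := by rw [h2, hR]
  obtain ⟨P, hPd⟩ : ∃ P, P = φ.f (AlgebraicClosure ℚ) R := ⟨_, rfl⟩
  rw [← hPd] at hP
  let c' : Coch (WI A B) := fun σ => c.1 σ - (act (WI A B) σ.toAlgHom P - P)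
  have hd : IsCob (WI A B) (c.1 - c') := by
    refine ⟨P, fun σ => ?_⟩
    change c.1 σ - (c.1 σ - (act (WI A B) σ.toAlgHom P - P)) = _
    abel
  have hsub : c' = c.1 - (c.1 - c') := by abel
  have hbc : c.1 - c' ∈ shaCoc (WI A B) := cob_shaCoc hd
  have hc' : c' ∈ shaCoc (WI A B) := by
    rw [hsub]
    exact sub_mem c.2 hbc
  have hv : ∀ σ, c' σ = 0 ∨ c' σ = T0 h (AlgebraicClosure ℚ) := by
    intro σ
    apply h3
    change ψ.f _ (c.1 σ - (act (WI A B) σ.toAlgHom P - P)) = 0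
    have h4 : ψ.f _ (c.1 σ) = act (EQ A B) σ.toAlgHom Q - Q := hQ σ
    rw [map_sub, map_sub, ← ψ.nat, hP, h4, sub_self]
  obtain ⟨d, hsq, hcd⟩ := coc_of h hc'.1 hv
  rw [hcd] at hc'
  refine ⟨d, hsq, hc', ?_⟩
  apply cls_eq
  have e1 : coc h d - c.1 = -(c.1 - c') := by
    rw [← hcd]
    abel
  rw [show ((⟨coc h d, hc'⟩ : shaCoc (WI A B)) : Coch (WI A B)) = coc h d from rfl, e1]
  exact cob_neg hd

end

/-- the composition of the two isogenies on the Tate-Shafarevich groups -/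
lemma sha_comp {A B : ℤ} (ψ : NH (WI A B) (EQ A B)) (φ : NH (EQ A B) (WI A B))
    (h1 : ∀ (L : Type) [Field L] [Algebra ℚ L] (P : Pt (WI A B) L), φ.f L (ψ.f L P) = P + P)
    (x : Sha (WI A B)) : φ.sha (ψ.sha x) = x + x := by
  obtain ⟨c, rfl⟩ := cls_surj x
  rw [sha_cls, sha_cls, ← cls_add]
  congr 1
  apply Subtype.ext
  funext σ
  exact h1 _ (c.1 σ)

/-- **the torsion of `Ш(E')`** -/
theorem tor_card (hlcb : S_LCB) (hlqu : S_LQU) (hsqf : S_SQF) {A B : ℤ} (h : A ≠ B) (hA : A ≠ 0)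
    (hB : B ≠ 0) (j : ℕ) (hfin : {x : Sha (EQ A B) | (2 ^ j) • x = 0}.Finite) :
    {x : Sha (WI A B) | (2 ^ j) • x = 0}.Finite ∧
    {x : Sha (WI A B) | (2 ^ j) • x = 0}.ncard ≤
      (SQ (-(A + B)) (A * B)).ncard * {x : Sha (EQ A B) | (2 ^ j) • x = 0}.ncard ∧
    {y : Sha (WI A B) | ∃ x, (2 ^ j) • x = 0 ∧ y = x + x}.ncard ≤
      {x : Sha (EQ A B) | (2 ^ j) • x = 0}.ncard := by
  classical
  obtain ⟨ψ, φ, h1, h2, h3⟩ := exists_NH h hA hB
  have hb : A * B ≠ 0 := mul_ne_zero hA hB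
  have hSQ := hsqf (-(A + B)) (A * B) hb
  -- the kernel
  let F : ℤ → Sha (WI A B) := fun d =>
    if hd : coc h d ∈ shaCoc (WI A B) then cls (WI A B) ⟨coc h d, hd⟩ else 0
  have hker : ∀ x : Sha (WI A B), ψ.sha x = 0 → x ∈ F '' (SQ (-(A + B)) (A * B)) := by
    intro x hx
    obtain ⟨d, hsq, hd, he⟩ := ker0 h hA hB ψ φ h2 h3 x hx
    refine ⟨d, hlqu A B d hA hB h hsq (hlcb A B h d hA hB hsq.ne_zero ℝ hd.2.2)
      (fun p _ => hlcb A B h d hA hB hsq.ne_zero ℚ_[p] (hd.2.1 p)), ?_⟩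
    simp only [F]
    rw [dif_pos hd]
    exact he
  have hmap : ∀ x : Sha (WI A B), (2 ^ j) • x = 0 → (2 ^ j) • ψ.sha x = 0 := by
    intro x hx
    rw [← map_nsmul, hx, map_zero]
  -- the fibres
  have hfib : ∀ x0 : Sha (WI A B), {x : Sha (WI A B) | ψ.sha x = ψ.sha x0} ⊆
      (fun y => y + x0) '' (F '' (SQ (-(A + B)) (A * B))) := by
    intro x0 x hx
    refine ⟨x - x0, hker _ ?_, sub_add_cancel _ _⟩
    rw [map_sub, hx, sub_self]
  have hfibf : ∀ x0 : Sha (WI A B), {x : Sha (WI A B) | ψ.sha x = ψ.sha x0}.Finite := fun x0 =>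
    ((hSQ.image F).image _).subset (hfib x0)
  have hfibc : ∀ x0 : Sha (WI A B), {x : Sha (WI A B) | ψ.sha x = ψ.sha x0}.ncard ≤
      (SQ (-(A + B)) (A * B)).ncard := fun x0 =>
    (Set.ncard_le_ncard (hfib x0) ((hSQ.image F).image _)).trans
      ((Set.ncard_image_le (hSQ.image F)).trans (Set.ncard_image_le hSQ))
  have hS : {x : Sha (WI A B) | (2 ^ j) • x = 0}.Finite := by
    have hsub : {x : Sha (WI A B) | (2 ^ j) • x = 0} ⊆
        ⋃ y ∈ {x : Sha (EQ A B) | (2 ^ j) • x = 0}, {x : Sha (WI A B) | ψ.sha x = y} := by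
      intro x hx
      rw [Set.mem_iUnion₂]
      exact ⟨ψ.sha x, hmap x hx, rfl⟩
    refine (hfin.biUnion fun y _ => ?_).subset hsub
    by_cases hy : ∃ x0, ψ.sha x0 = y
    · obtain ⟨x0, rfl⟩ := hy
      exact hfibf x0
    · convert Set.finite_empty
      rw [Set.eq_empty_iff_forall_notMem]
      intro x hx
      exact hy ⟨x, hx⟩
  refine ⟨hS, ?_, ?_⟩
  · obtain ⟨S, hSe⟩ : ∃ S : Finset (Sha (WI A B)), (S : Set (Sha (WI A B))) =
      {x : Sha (WI A B) | (2 ^ j) • x = 0} := ⟨hS.toFinset, hS.coe_toFinset⟩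
    obtain ⟨T, hTe⟩ : ∃ T : Finset (Sha (EQ A B)), (T : Set (Sha (EQ A B))) =
      {x : Sha (EQ A B) | (2 ^ j) • x = 0} := ⟨hfin.toFinset, hfin.coe_toFinset⟩
    rw [← hSe, ← hTe, Set.ncard_coe_finset, Set.ncard_coe_finset]
    have h5 : S.card ≤ (SQ (-(A + B)) (A * B)).ncard * (S.image ψ.sha).card := by
      refine Finset.card_le_mul_card_image S _ fun y hy => ?_
      obtain ⟨x0, -, rfl⟩ := Finset.mem_image.1 hy
      refine le_trans ?_ (hfibc x0)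
      rw [← Set.ncard_coe_finset]
      refine Set.ncard_le_ncard (fun x hx => ?_) (hfibf x0)
      exact (Finset.mem_filter.1 (Finset.mem_coe.1 hx)).2
    refine h5.trans (Nat.mul_le_mul_left _ (Finset.card_le_card ?_))
    intro y hy
    obtain ⟨x0, hx0, rfl⟩ := Finset.mem_image.1 hy
    rw [← Finset.mem_coe, hTe]
    have h6 : x0 ∈ {x : Sha (WI A B) | (2 ^ j) • x = 0} := by
      rw [← hSe]
      exact hx0
    exact hmap x0 h6
  · have hsub : {y : Sha (WI A B) | ∃ x, (2 ^ j) • x = 0 ∧ y = x + x} ⊆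
        φ.sha '' {x : Sha (EQ A B) | (2 ^ j) • x = 0} := by
      rintro y ⟨x, hx, rfl⟩
      exact ⟨ψ.sha x, hmap x hx, sha_comp ψ φ h1 x⟩
    exact (Set.ncard_le_ncard hsub (hfin.image _)).trans (Set.ncard_image_le hfin)

end Pool.Agent.R431.NO
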