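import Pool.Agent.Y676.IS.Cnt
import Pool.Agent.Y497.IS.LCB
import Pool.Agent.Y500.IS.LQU
import Pool.Agent.R431.NO.Rk

/-!
# The normal order of the 2-power torsion of `Ш` of the 2-isogenous curves: the count
-/

set_option autoImplicit false
set_option linter.unusedSectionVars false

namespace Pool.Agent.R431.NO

open Finset WeierstrassCurve

open Pool.Agent.TH841.SH.D

open Pool.Agent.TH841.LS (WI big_loglog)

open Pool.Agent.TH841.PT (EQ)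

open Pool.Agent.TH841.NO (SQ fo)

open Pool.Agent.Y676.IS (tri bx bx_mem bx_inj tri_cop tri_mul)

/-- the shift -/
def M0 (i : Fin 3) (X : ℕ) (N1 N2 : ℤ) : ℤ × ℤ :=
  ![(N1, N2), (-N1 - ((X : ℤ) + 1), N2 - N1 - ((X : ℤ) + 1)),
    (-N2 - ((X : ℤ) + 1), N1 - N2 - ((X : ℤ) + 1))] i

lemma bx_tri2 (i : Fin 3) {X : ℕ} {t : ℕ × ℕ} (N1 N2 : ℤ) (h1 : t.1 ≤ X) (h2 : t.2 ≤ X) :
    (M0 i X N1 N2).1 + ((bx i X t).1 : ℤ) = (tri i (N1 + t.1) (N2 + t.2)).1 ∧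
      (M0 i X N1 N2).2 + ((bx i X t).2 : ℤ) = (tri i (N1 + t.1) (N2 + t.2)).2 := by
  fin_cases i
  · exact ⟨rfl, rfl⟩
  · constructor
    · change -N1 - ((X : ℤ) + 1) + ((X + 1 - t.1 : ℕ) : ℤ) = -(N1 + t.1)
      omega
    · change N2 - N1 - ((X : ℤ) + 1) + ((t.2 + (X + 1) - t.1 : ℕ) : ℤ) =
        (N2 + t.2) - (N1 + t.1)
      omega
  · constructor
    · change -N2 - ((X : ℤ) + 1) + ((X + 1 - t.2 : ℕ) : ℤ) = -(N2 + t.2)
      omega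
    · change N1 - N2 - ((X : ℤ) + 1) + ((t.1 + (X + 1) - t.2 : ℕ) : ℤ) =
        (N1 + t.1) - (N2 + t.2)
      omega

lemma M0_le (i : Fin 3) {X L : ℕ} (hX : 1 ≤ X) {N1 N2 : ℤ} (h1 : N1.natAbs ≤ X ^ L)
    (h2 : N2.natAbs ≤ X ^ L) : (M0 i X N1 N2).1.natAbs ≤ (2 * X) ^ (L + 2) ∧
      (M0 i X N1 N2).2.natAbs ≤ (2 * X) ^ (L + 2) := by
  have h3 : 2 * X ^ L + X + 1 ≤ (2 * X) ^ (L + 2) := by
    have e : (2 * X) ^ (L + 2) = 2 ^ L * (4 * (X ^ L * X ^ 2)) := by ring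
    have h4 : 1 ≤ X ^ L := Nat.one_le_pow _ _ hX
    have h5 : X ≤ X ^ 2 := by nlinarith
    have h6 : 1 ≤ 2 ^ L := Nat.one_le_two_pow
    have h7 : X ^ L ≤ X ^ L * X ^ 2 := Nat.le_mul_of_pos_right _ (by positivity)
    have h8 : X ^ 2 ≤ X ^ L * X ^ 2 := Nat.le_mul_of_pos_left _ (by omega)
    have h9 : 2 * X ^ L + X + 1 ≤ 4 * (X ^ L * X ^ 2) := by omega
    rw [e]
    exact h9.trans (Nat.le_mul_of_pos_left _ (by positivity))
  generalize X ^ L = P at h1 h2 h3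
  generalize (2 * X) ^ (L + 2) = Q at h3 ⊢
  fin_cases i
  · change N1.natAbs ≤ Q ∧ N2.natAbs ≤ Q
    omega
  · change (-N1 - ((X : ℤ) + 1)).natAbs ≤ Q ∧ (N2 - N1 - ((X : ℤ) + 1)).natAbs ≤ Q
    omega
  · change (-N2 - ((X : ℤ) + 1)).natAbs ≤ Q ∧ (N1 - N2 - ((X : ℤ) + 1)).natAbs ≤ Q
    omega

lemma conv {W : WeierstrassCurve ℚ} {R : ℕ} (h1 : ∀ j : ℕ, Finite (ShaTor W (2 ^ j)))
    (h2 : ∀ j : ℕ, 1 ≤ j → (2 : ℝ) ^ rk W *
      (Nat.card (ShaTor W (2 ^ j)) : ℝ) ^ ((1 : ℝ) / j) ≤ 2 ^ R) (j : ℕ) (hj : 1 ≤ j) :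
    {x : Sha W | (2 ^ j) • x = 0}.Finite ∧
      2 ^ (rk W * j) * {x : Sha W | (2 ^ j) • x = 0}.ncard ≤ 2 ^ (R * j) := by
  have hf : {x : Sha W | (2 ^ j) • x = 0}.Finite := h1 j
  refine ⟨hf, ?_⟩
  have e : Nat.card (ShaTor W (2 ^ j)) = {x : Sha W | (2 ^ j) • x = 0}.ncard :=
    Nat.card_coe_set_eq _
  have h3 := h2 j hj
  rw [e] at h3
  generalize {x : Sha W | (2 ^ j) • x = 0}.ncard = c at h3 ⊢
  have hc : (0 : ℝ) ≤ (c : ℝ) := Nat.cast_nonneg _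
  have hj0 : (j : ℝ) ≠ 0 := by
    have : j ≠ 0 := by omega
    exact_mod_cast this
  have h4 : ((2 : ℝ) ^ rk W * (c : ℝ) ^ ((1 : ℝ) / j)) ^ j ≤ (2 ^ R) ^ j :=
    pow_le_pow_left₀ (by positivity) h3 j
  rw [mul_pow, ← pow_mul, ← pow_mul, ← Real.rpow_natCast ((c : ℝ) ^ ((1 : ℝ) / j)),
    ← Real.rpow_mul hc, one_div_mul_cancel hj0, Real.rpow_one] at h4
  exact_mod_cast h4

lemma OkS.mono {lo hi lo' hi' : ℝ} {R R' : ℕ} {p : ℤ × ℤ} (h : OkS lo hi R p) (h1 : lo' ≤ lo)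
    (h2 : hi ≤ hi') (h3 : R ≤ R') : OkS lo' hi' R' p := by
  obtain ⟨a1, a2, a3, a4, a5, k, a6, a7⟩ := h
  exact ⟨a1, a2, a3, fun j hj => ⟨(a4 j hj).1, (a4 j hj).2.trans
    (Nat.pow_le_pow_right two_pos (Nat.mul_le_mul_right _ h3))⟩, a5.trans h2, k, h1.trans a6, a7⟩

/-- almost all pairs, for one point of order two -/
theorem almost (D : ℤ) (hD : D ≠ 0) (i : Fin 3) (δ ε : ℝ) (L : ℕ) (hδ : 0 < δ) (hε : 0 < ε) :
    ∃ R X0 : ℕ, ∀ (N1 N2 : ℤ) (X : ℕ), X0 ≤ X → N1.natAbs ≤ X ^ L → N2.natAbs ≤ X ^ L →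
      ∃ T : Finset (ℕ × ℕ), (T.card : ℝ) ≤ ε * X ^ 2 ∧ ∀ t ∈ Icc 1 X ×ˢ Icc 1 X,
        IsCoprime (N1 + (t.1 : ℤ)) (N2 + (t.2 : ℤ)) → t ∉ T →
        OkS ((3 / 2 - δ) * Real.log (Real.log (2 * X : ℕ)))
          ((3 / 2 + δ) * Real.log (Real.log (2 * X : ℕ))) R
          (tri i (D * (N1 + (t.1 : ℤ))) (D * (N2 + (t.2 : ℤ)))) := by
  classical
  have havg := Pool.Agent.W307.FK.avgn_of Pool.Agent.W307.FK.expf
  obtain ⟨R1, X1, g1⟩ := Pool.Agent.TH841.LS.large6 Pool.Agent.TH841.LS.CNT2Xf.cnt2x havg D hD δ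
    (ε / 8) (L + 2) hδ (by positivity)
  obtain ⟨R2, X2, g2⟩ := Pool.Agent.TH841.NO.norder2 Pool.Agent.TH841.NO.QULf.qul
    Pool.Agent.TH841.NO.QUMf.qum Pool.Agent.TH841.NO.LWAf.lwa Pool.Agent.TH841.NO.LWBf.lwb
    Pool.Agent.TH841.NO.LWBf.lwc Pool.Agent.TH841.NO.PRf.pra Pool.Agent.TH841.NO.PRf.prb
    Pool.Agent.TH841.NO.LIN2f.lin2 Pool.Agent.TH841.LS.CNT2Xf.cnt2x
    Pool.Agent.TH841.NO.CNTU2f.cntu2 havg D hD δ (ε / 8) (L + 2) hδ (by positivity)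
  refine ⟨R1 + 1, X1 + X2 + 1, fun N1 N2 X hX hN1 hN2 => ?_⟩
  obtain ⟨hM1, hM2⟩ := M0_le i (by omega : 1 ≤ X) hN1 hN2
  have b1 := g1 (M0 i X N1 N2).1 (M0 i X N1 N2).2 (2 * X) (by omega) hM1 hM2
  have b2 := g2 (M0 i X N1 N2).1 (M0 i X N1 N2).2 (2 * X) (by omega) hM1 hM2
  set S1 := (Icc 1 (2 * X) ×ˢ Icc 1 (2 * X)).filter (fun t : ℕ × ℕ =>
        IsCoprime ((M0 i X N1 N2).1 + (t.1 : ℤ)) ((M0 i X N1 N2).2 + (t.2 : ℤ)) ∧
        ¬ ∀ A B : ℤ, A = D * ((M0 i X N1 N2).1 + (t.1 : ℤ)) →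
          B = D * ((M0 i X N1 N2).2 + (t.2 : ℤ)) →
        A ≠ 0 ∧ B ≠ 0 ∧ A ≠ B ∧
        (∀ j : ℕ, Finite (ShaTor (EQ A B) (2 ^ j))) ∧
        (∀ j : ℕ, 1 ≤ j → (2 : ℝ) ^ rk (EQ A B) *
          (Nat.card (ShaTor (EQ A B) (2 ^ j)) : ℝ) ^ ((1 : ℝ) / j) ≤ 2 ^ (R1 + 1)) ∧
        ∃ k : ℕ, (3 / 2 - δ) * Real.log (Real.log (2 * X : ℕ)) ≤ k ∧
        ∃ φ : (Fin k → ZMod 2) →+ Sha (WI A B), Function.Injective φ) with hS1
  set S2 := (Icc 1 (2 * X) ×ˢ Icc 1 (2 * X)).filter (fun t : ℕ × ℕ =>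
        IsCoprime ((M0 i X N1 N2).1 + (t.1 : ℤ)) ((M0 i X N1 N2).2 + (t.2 : ℤ)) ∧
        ¬ ∀ A B : ℤ, A = D * ((M0 i X N1 N2).1 + (t.1 : ℤ)) →
          B = D * ((M0 i X N1 N2).2 + (t.2 : ℤ)) →
        A ≠ 0 ∧ B ≠ 0 ∧ A ≠ B ∧
        (3 / 2 - δ) * Real.log (Real.log (2 * X : ℕ)) ≤ fo (-(A + B)) (A * B) ∧
        (fo (-(A + B)) (A * B) : ℝ) ≤ (3 / 2 + δ) * Real.log (Real.log (2 * X : ℕ)) ∧
        fo (2 * (A + B)) ((A - B) ^ 2) ≤ R2 ∧ rk (EQ A B) ≤ R2) with hS2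
  set S := (Icc 1 X ×ˢ Icc 1 X).filter (fun t : ℕ × ℕ => bx i X t ∈ S1 ∪ S2) with hS
  refine ⟨S, ?_, ?_⟩
  · have hsub : S.image (bx i X) ⊆ S1 ∪ S2 := by
      intro t' ht'
      obtain ⟨t, ht, rfl⟩ := mem_image.1 ht'
      exact (mem_filter.1 ht).2
    have hcard : S.card ≤ S1.card + S2.card := by
      rw [← card_image_of_injOn (s := S) (f := bx i X) (fun t ht t' ht' he =>
        bx_inj i (mem_filter.1 ht).1 (mem_filter.1 ht').1 he)]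
      exact (card_le_card hsub).trans (card_union_le _ _)
    have hcard' : (S.card : ℝ) ≤ S1.card + S2.card := by exact_mod_cast hcard
    push_cast at b1 b2
    nlinarith [b1, b2, hcard']
  · intro t ht1 ht2 ht3
    have hm := bx_mem i ht1
    have ht1' := ht1
    rw [mem_product, mem_Icc, mem_Icc] at ht1'
    obtain ⟨e1, e2⟩ := bx_tri2 i N1 N2 ht1'.1.2 ht1'.2.2
    have hc := tri_cop i ht2
    have hcon : bx i X t ∉ S1 ∪ S2 := fun h => ht3 (mem_filter.2 ⟨ht1, h⟩)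
    rw [mem_union, not_or, hS1, hS2, mem_filter, mem_filter, e1, e2] at hcon
    obtain ⟨c1, c2⟩ := hcon
    have d1 := not_not.1 (fun h => c1 ⟨hm, hc, h⟩)
    have d2 := not_not.1 (fun h => c2 ⟨hm, hc, h⟩)
    obtain ⟨f1, f2, f3, f4, f5, k, k1, k2⟩ := d1 _ _ rfl rfl
    obtain ⟨-, -, -, -, l2, -, -⟩ := d2 _ _ rfl rfl
    rw [tri_mul]
    exact ⟨f1, f2, f3, conv f4 f5, l2, k, k1, k2⟩

/-- comparison of the orders at `X` and at `Y` -/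
lemma scale (δ : ℝ) (hδ : 0 < δ) (c : ℕ) (hc : 1 ≤ c) : ∃ M : ℕ, ∀ X Y : ℕ, M ≤ X →
    X ≤ c * Y → Y ≤ c * X →
    (3 / 2 - δ) * Real.log (Real.log X) ≤ (3 / 2 - min δ 1 / 2) * Real.log (Real.log Y) ∧
    (3 / 2 + min δ 1 / 2) * Real.log (Real.log Y) ≤ (3 / 2 + δ) * Real.log (Real.log X) := by
  have hm : 0 < min δ 1 := lt_min hδ one_pos
  have hm1 : min δ 1 ≤ 1 := min_le_right _ _
  have hmδ : min δ 1 ≤ δ := min_le_left _ _
  obtain ⟨M, hM⟩ := big_loglog (min δ 1 / 2) 2 (by positivity)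
  obtain ⟨M', hM'⟩ : ∃ M' : ℕ, ∀ X : ℕ, M' ≤ X → Real.log c ≤ Real.log X / 2 ∧
      1 < Real.log X := by
    have h1 : Filter.Tendsto (fun M : ℕ => Real.log (M : ℝ)) Filter.atTop Filter.atTop :=
      Real.tendsto_log_atTop.comp tendsto_natCast_atTop_atTop
    obtain ⟨M', hM'⟩ := Filter.eventually_atTop.1 (h1.eventually_ge_atTop (2 * Real.log c + 3))
    refine ⟨M', fun X hX => ?_⟩
    have h2 := hM' X hX
    have h3 : 0 ≤ Real.log c := Real.log_natCast_nonneg c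
    constructor
    · linarith
    · linarith
  refine ⟨M + M' + 1, fun X Y hX h1 h2 => ?_⟩
  have h3 := hM X (by omega)
  obtain ⟨h4, h5⟩ := hM' X (by omega)
  have hcr : (1 : ℝ) ≤ c := by exact_mod_cast hc
  have hY : 0 < Y := by
    rcases Nat.eq_zero_or_pos Y with h0 | h0
    · rw [h0] at h1
      omega
    · exact h0
  have hYr : (0 : ℝ) < Y := by exact_mod_cast hY
  have hXr : (0 : ℝ) < X := by
    have : 0 < X := by omega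
    exact_mod_cast this
  have e1 : (X : ℝ) ≤ c * Y := by exact_mod_cast h1
  have e2 : (Y : ℝ) ≤ c * X := by exact_mod_cast h2
  have l1 : Real.log X ≤ Real.log c + Real.log Y := by
    rw [← Real.log_mul (by linarith) hYr.ne']
    exact Real.log_le_log hXr e1
  have l2 : Real.log Y ≤ Real.log c + Real.log X := by
    rw [← Real.log_mul (by linarith) hXr.ne']
    exact Real.log_le_log hYr e2
  have hlog2 : Real.log 2 < 1 := by
    have := Real.log_two_lt_d9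
    linarith
  have m1 : Real.log (Real.log X) ≤ Real.log (Real.log Y) + 1 := by
    have h6 : Real.log X ≤ 2 * Real.log Y := by linarith
    have h7 : 0 < Real.log Y := by linarith
    have h8 : Real.log (Real.log X) ≤ Real.log (2 * Real.log Y) :=
      Real.log_le_log (by linarith) h6
    rw [Real.log_mul (by norm_num) h7.ne'] at h8
    linarith
  have m2 : Real.log (Real.log Y) ≤ Real.log (Real.log X) + 1 := by
    have h6 : Real.log Y ≤ 2 * Real.log X := by linarith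
    have h7 : 0 < Real.log Y := by linarith
    have h8 : Real.log (Real.log Y) ≤ Real.log (2 * Real.log X) :=
      Real.log_le_log h7 h6
    rw [Real.log_mul (by norm_num) (by linarith)] at h8
    linarith
  have hl : 0 < Real.log (Real.log X) := Real.log_pos h5
  constructor
  · nlinarith
  · nlinarith

/-- **almost all coprime pairs** -/
theorem pairs (D : ℤ) (hD : D ≠ 0) (δ ε : ℝ) (L : ℕ) (hδ : 0 < δ) (hε : 0 < ε) :
    ∃ R X0 : ℕ, ∀ (N1 N2 : ℤ) (X : ℕ), X0 ≤ X → N1.natAbs ≤ X ^ L → N2.natAbs ≤ X ^ L →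
      ∃ T : Finset (ℕ × ℕ), (T.card : ℝ) ≤ ε * X ^ 2 ∧ ∀ t ∈ Icc 1 X ×ˢ Icc 1 X,
        IsCoprime (N1 + (t.1 : ℤ)) (N2 + (t.2 : ℤ)) → t ∉ T → ∀ i,
        OkS ((3 / 2 - δ) * Real.log (Real.log X)) ((3 / 2 + δ) * Real.log (Real.log X)) R
          (tri i (D * (N1 + (t.1 : ℤ))) (D * (N2 + (t.2 : ℤ)))) := by
  classical
  have hm : 0 < min δ 1 := lt_min hδ one_pos
  have ha := fun i => almost D hD i (min δ 1 / 2) (ε / 3) L (by positivity) (by positivity)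
  choose R X0 h using ha
  obtain ⟨M, hM⟩ := scale δ hδ 2 (by norm_num)
  refine ⟨∑ i, R i, ∑ i, X0 i + M, fun N1 N2 X hX hN1 hN2 => ?_⟩
  have hXi : ∀ i, X0 i ≤ X := fun i => by
    have h1 : X0 i ≤ ∑ i, X0 i :=
      single_le_sum (f := fun i => X0 i) (fun _ _ => Nat.zero_le _) (mem_univ i)
    omega
  have hRi : ∀ i, R i ≤ ∑ i, R i := fun i =>
    single_le_sum (f := fun i => R i) (fun _ _ => Nat.zero_le _) (mem_univ i)
  have hT := fun i => h i N1 N2 X (hXi i) hN1 hN2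
  choose T hT1 hT2 using hT
  obtain ⟨s1, s2⟩ := hM X (2 * X) (by omega) (by omega) le_rfl
  refine ⟨univ.biUnion T, ?_, fun t ht hc hn i => ?_⟩
  · have h1 : ((univ.biUnion T).card : ℝ) ≤ ∑ i, ((T i).card : ℝ) := by
      exact_mod_cast card_biUnion_le
    refine h1.trans ((sum_le_sum fun i _ => hT1 i).trans (le_of_eq ?_))
    rw [sum_const, card_univ, Fintype.card_fin, nsmul_eq_mul]
    push_cast
    ring
  · exact (hT2 i t ht hc fun h' => hn (mem_biUnion.2 ⟨i, mem_univ _, h'⟩)).mono s1 s2 (hRi i)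

end Pool.Agent.R431.NO
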