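import Pool.Agent.R431.NO.Fin
import Pool.Agent.TH841.NO.Fin
import Pool.Agent.TH841.TR.Fin2

/-!
# The 2-power torsion of `Ш` of the three 2-isogenous curves in one-parameter families
-/

set_option autoImplicit false
set_option linter.unusedSectionVars false

namespace Pool.Agent.R431.NO

open Finset Polynomial WeierstrassCurve

open Pool.Agent.TH841.SH.D

open Pool.Agent.TH841.LS (WI DG sc SqMod)

open Pool.Agent.TH841.PT (EQ Irr)

open Pool.Agent.TH841.TR (UP allf Bal vp SqM bal_of vp_zero vp_one vp_two)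

open Pool.Agent.TH841.NO (SQ fo)

open Pool.Agent.Y676.IS (tri)

section

variable {n : Fin 3 → ℕ} {m : ℕ}

/-- almost all members of a pencil, for one point of order two -/
theorem pen1 (a : Fin 3 → ℤ) (f : ∀ k : Fin 3, Fin (n k) → ℤ[X]) (c : ℤ) (g : Fin m → ℤ[X])
    (ha : ∀ k, a k ≠ 0) (hc : c ≠ 0) (hf : Irr (allf g f))
    (hU : UP a f 0 - UP a f 1 = UP a f 2)
    (hn : (∀ k, 2 * n k < n 0 + n 1 + n 2) ∨ Bal (DG c g) a f) (δ ε : ℝ) (L : ℕ)
    (hδ : 0 < δ) (hε : 0 < ε) :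
    ∃ R M0 : ℕ, ∀ (N : ℤ) (M : ℕ), M0 ≤ M → |N| ≤ (M : ℤ) ^ L →
      ∃ T : Finset ℤ, (T.card : ℝ) ≤ ε * M ∧ ∀ t ∈ Ioc N (N + (M : ℤ)), t ∉ T →
        OkS ((sc a f c g - δ) * Real.log (Real.log M))
          ((sc a f c g + δ) * Real.log (Real.log M)) R
          ((DG c g * UP a f 0).eval t, (DG c g * UP a f 1).eval t) := by
  classical
  obtain ⟨R1, M1, h1⟩ := Pool.Agent.TH841.LS.large5
    (Pool.Agent.TH841.LS.CNTXf.cntx_of Pool.Agent.TH841.LS.TKXf.tkx)
    Pool.Agent.TH841.PM.tavz Pool.Agent.TH841.TR.tav3x a f c g 1 ha hc one_ne_zero hf hU hn δ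
    (ε / 2) L hδ (by positivity)
  obtain ⟨R2, M2, h2⟩ := Pool.Agent.TH841.NO.norder Pool.Agent.TH841.NO.QULf.qul
    Pool.Agent.TH841.NO.QUMf.qum Pool.Agent.TH841.NO.LWAf.lwa Pool.Agent.TH841.NO.LWBf.lwb
    Pool.Agent.TH841.NO.LWBf.lwc Pool.Agent.TH841.NO.PRf.pra Pool.Agent.TH841.NO.PRf.prb
    Pool.Agent.TH841.NO.LIN2f.lin2
    (Pool.Agent.TH841.LS.CNTXf.cntx_of Pool.Agent.TH841.LS.TKXf.tkx)
    (Pool.Agent.TH841.NO.CNTUf.cntu_of Pool.Agent.TH841.LS.TKXf.tkx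
      Pool.Agent.TH841.NO.TKLf.tkl)
    Pool.Agent.TH841.PM.tavz Pool.Agent.TH841.TR.tav3x a f c g ha hc hf hU hn δ (ε / 2) L
    hδ (by positivity)
  refine ⟨R1 + 1, M1 + M2, fun N M hM hN => ?_⟩
  have g1 := h1 N M (by omega) hN
  have g2 := h2 N M (by omega) hN
  simp only [one_pow, mul_one] at g1
  set S1 := (Ioc N (N + (M : ℤ))).filter (fun t => ¬ ∀ A B : ℤ,
        A = (DG c g * UP a f 0).eval t →
        B = (DG c g * UP a f 1).eval t → A ≠ 0 ∧ B ≠ 0 ∧ A ≠ B ∧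
        (∀ j : ℕ, Finite (ShaTor (EQ A B) (2 ^ j))) ∧
        (∀ j : ℕ, 1 ≤ j → (2 : ℝ) ^ rk (EQ A B) *
          (Nat.card (ShaTor (EQ A B) (2 ^ j)) : ℝ) ^ ((1 : ℝ) / j) ≤ 2 ^ (R1 + 1)) ∧
        ∃ k : ℕ, (sc a f c g - δ) * Real.log (Real.log M) ≤ k ∧
        ∃ φ : (Fin k → ZMod 2) →+ Sha (WI A B), Function.Injective φ) with hS1
  set S2 := (Ioc N (N + (M : ℤ))).filter (fun t => ¬ ∀ A B : ℤ,
        A = (DG c g * UP a f 0).eval t →
        B = (DG c g * UP a f 1).eval t → A ≠ 0 ∧ B ≠ 0 ∧ A ≠ B ∧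
        (sc a f c g - δ) * Real.log (Real.log M) ≤ fo (-(A + B)) (A * B) ∧
        (fo (-(A + B)) (A * B) : ℝ) ≤ (sc a f c g + δ) * Real.log (Real.log M) ∧
        fo (2 * (A + B)) ((A - B) ^ 2) ≤ R2 ∧ rk (EQ A B) ≤ R2) with hS2
  refine ⟨S1 ∪ S2, ?_, ?_⟩
  · have h3 : ((S1 ∪ S2).card : ℝ) ≤ S1.card + S2.card := by
      exact_mod_cast card_union_le _ _
    linarith
  · intro t ht hn'
    rw [mem_union, not_or, hS1, hS2, mem_filter, mem_filter] at hn'
    obtain ⟨c1, c2⟩ := hn'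
    have d1 := not_not.1 (fun h => c1 ⟨ht, h⟩)
    have d2 := not_not.1 (fun h => c2 ⟨ht, h⟩)
    obtain ⟨f1, f2, f3, f4, f5, k, k1, k2⟩ := d1 _ _ rfl rfl
    obtain ⟨-, -, -, -, l2, -, -⟩ := d2 _ _ rfl rfl
    exact ⟨f1, f2, f3, conv f4 f5, l2, k, k1, k2⟩

/-- the permutation -/
def pm (i : Fin 3) : Fin 3 → Fin 3 := ![![0, 1, 2], ![0, 2, 1], ![1, 2, 0]] i

/-- the signs -/
def sg (i : Fin 3) : Fin 3 → ℤ := ![![1, 1, 1], ![-1, -1, -1], ![-1, 1, -1]] i

lemma pm_inj (i : Fin 3) : Function.Injective (pm i) := by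
  fin_cases i <;> decide

lemma sg_ne (i k : Fin 3) : sg i k ≠ 0 := by
  fin_cases i <;> fin_cases k <;> decide

lemma UP_pm (a : Fin 3 → ℤ) (f : ∀ k : Fin 3, Fin (n k) → ℤ[X]) (i k : Fin 3) :
    UP (fun k => sg i k * a (pm i k)) (fun k => f (pm i k)) k = C (sg i k) * UP a f (pm i k) := by
  unfold UP
  rw [C_mul, mul_assoc]

lemma hU_pm {a : Fin 3 → ℤ} {f : ∀ k : Fin 3, Fin (n k) → ℤ[X]}
    (hU : UP a f 0 - UP a f 1 = UP a f 2) (i : Fin 3) :
    UP (fun k => sg i k * a (pm i k)) (fun k => f (pm i k)) 0 -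
      UP (fun k => sg i k * a (pm i k)) (fun k => f (pm i k)) 1 =
      UP (fun k => sg i k * a (pm i k)) (fun k => f (pm i k)) 2 := by
  rw [UP_pm, UP_pm, UP_pm]
  fin_cases i
  · change C (1 : ℤ) * UP a f 0 - C (1 : ℤ) * UP a f 1 = C (1 : ℤ) * UP a f 2
    rw [C_1, one_mul, one_mul, one_mul, hU]
  · change C (-1 : ℤ) * UP a f 0 - C (-1 : ℤ) * UP a f 2 = C (-1 : ℤ) * UP a f 1
    rw [C_neg, C_1]
    linear_combination -hU
  · change C (-1 : ℤ) * UP a f 1 - C (1 : ℤ) * UP a f 2 = C (-1 : ℤ) * UP a f 0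
    rw [C_neg, C_1]
    linear_combination hU

lemma tri_pm {a : Fin 3 → ℤ} {f : ∀ k : Fin 3, Fin (n k) → ℤ[X]}
    (hU : UP a f 0 - UP a f 1 = UP a f 2) (D : ℤ[X]) (t : ℤ) (i : Fin 3) :
    ((D * UP (fun k => sg i k * a (pm i k)) (fun k => f (pm i k)) 0).eval t,
      (D * UP (fun k => sg i k * a (pm i k)) (fun k => f (pm i k)) 1).eval t) =
    tri i ((D * UP a f 0).eval t) ((D * UP a f 1).eval t) := by
  rw [UP_pm, UP_pm]
  have hU' := congrArg (Polynomial.eval t) hU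
  rw [eval_sub] at hU'
  simp only [eval_mul, eval_C]
  fin_cases i
  · change (D.eval t * ((1 : ℤ) * (UP a f 0).eval t), D.eval t * ((1 : ℤ) * (UP a f 1).eval t)) =
      (D.eval t * (UP a f 0).eval t, D.eval t * (UP a f 1).eval t)
    rw [one_mul, one_mul]
  · change (D.eval t * ((-1 : ℤ) * (UP a f 0).eval t), D.eval t * ((-1 : ℤ) * (UP a f 2).eval t)) =
      (-(D.eval t * (UP a f 0).eval t), D.eval t * (UP a f 1).eval t - D.eval t * (UP a f 0).eval t)
    rw [← hU']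
    exact Prod.ext (by ring) (by ring)
  · change (D.eval t * ((-1 : ℤ) * (UP a f 1).eval t), D.eval t * ((1 : ℤ) * (UP a f 2).eval t)) =
      (-(D.eval t * (UP a f 1).eval t), D.eval t * (UP a f 0).eval t - D.eval t * (UP a f 1).eval t)
    rw [← hU']
    exact Prod.ext (by ring) (by ring)

/-- the renumbering -/
def em (i : Fin 3) : (Σ k : Fin 3, Fin (n (pm i k))) ⊕ Fin m → (Σ k : Fin 3, Fin (n k)) ⊕ Fin m :=
  Sum.map (fun x => ⟨pm i x.1, x.2⟩) id

lemma em_inj (i : Fin 3) : Function.Injective (em (n := n) (m := m) i) := by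
  unfold em
  refine Function.Injective.sumMap ?_ Function.injective_id
  rintro ⟨k, x⟩ ⟨k', x'⟩ h
  have h1 : pm i k = pm i k' := congrArg Sigma.fst h
  have h2 := pm_inj i h1
  subst h2
  have h3 : (⟨pm i k, x⟩ : Σ k : Fin 3, Fin (n k)) = ⟨pm i k, x'⟩ := h
  have h4 : x = x' := eq_of_heq (Sigma.mk.inj_iff.1 h3).2
  rw [h4]

lemma irr_pm {f : ∀ k : Fin 3, Fin (n k) → ℤ[X]} {g : Fin m → ℤ[X]} (hf : Irr (allf g f))
    (i : Fin 3) : Irr (allf (n := fun k => n (pm i k)) g (fun k => f (pm i k))) := by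
  have he : ∀ j, allf (n := fun k => n (pm i k)) g (fun k => f (pm i k)) j =
      allf g f (em i j) := by
    rintro (x | x)
    · rfl
    · rfl
  refine ⟨fun j => ?_, fun j => ?_, fun j l hjl => ?_⟩
  · rw [he]
    exact hf.irr _
  · rw [he]
    exact hf.deg _
  · rw [he, he]
    exact hf.assoc _ _ fun h => hjl (em_inj i h)

lemma sqM_congr {f v v' : ℤ[X]} (h : f ∣ v - v') : SqM f v ↔ SqM f v' := by
  obtain ⟨e, he⟩ := h
  have hm : v.map (Int.castRingHom ℚ) - v'.map (Int.castRingHom ℚ) =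
      f.map (Int.castRingHom ℚ) * e.map (Int.castRingHom ℚ) := by
    rw [← Polynomial.map_sub, he, Polynomial.map_mul]
  constructor
  · rintro ⟨q, r, hr⟩
    refine ⟨q, r + e.map (Int.castRingHom ℚ), ?_⟩
    linear_combination hr + hm
  · rintro ⟨q, r, hr⟩
    refine ⟨q, r - e.map (Int.castRingHom ℚ), ?_⟩
    linear_combination hr - hm

lemma sum_pm (i : Fin 3) : n (pm i 0) + n (pm i 1) + n (pm i 2) = n 0 + n 1 + n 2 := by
  fin_cases i
  · rfl
  · change n 0 + n 2 + n 1 = n 0 + n 1 + n 2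
    ring
  · change n 1 + n 2 + n 0 = n 0 + n 1 + n 2
    ring

open Classical in
lemma bal_pm {a : Fin 3 → ℤ} {f : ∀ k : Fin 3, Fin (n k) → ℤ[X]}
    (hU : UP a f 0 - UP a f 1 = UP a f 2) {D : ℤ[X]} (hB : Bal D a f) (i : Fin 3) :
    Bal (n := fun k => n (pm i k)) D (fun k => sg i k * a (pm i k)) (fun k => f (pm i k)) := by
  intro k
  have h1 := hB (pm i k)
  have hdiv : ∃ e : ℤ[X], vp (n := fun k => n (pm i k)) D (fun k => sg i k * a (pm i k))
      (fun k => f (pm i k)) k - vp D a f (pm i k) = e * UP a f (pm i k) := by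
    fin_cases k
    · change ∃ e : ℤ[X], vp (n := fun k => n (pm i k)) D (fun k => sg i k * a (pm i k))
        (fun k => f (pm i k)) 0 - vp D a f (pm i 0) = e * UP a f (pm i 0)
      rw [vp_zero, UP_pm]
      fin_cases i
      · refine ⟨0, ?_⟩
        change -(D * (C (1 : ℤ) * UP a f 1)) - vp D a f 0 = 0 * UP a f 0
        rw [vp_zero, C_1]
        ring
      · refine ⟨D, ?_⟩
        change -(D * (C (-1 : ℤ) * UP a f 2)) - vp D a f 0 = D * UP a f 0
        rw [vp_zero, C_neg, C_1]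
        linear_combination (-D) * hU
      · refine ⟨D, ?_⟩
        change -(D * (C (1 : ℤ) * UP a f 2)) - vp D a f 1 = D * UP a f 1
        rw [vp_one, C_1]
        linear_combination D * hU
    · change ∃ e : ℤ[X], vp (n := fun k => n (pm i k)) D (fun k => sg i k * a (pm i k))
        (fun k => f (pm i k)) 1 - vp D a f (pm i 1) = e * UP a f (pm i 1)
      rw [vp_one, UP_pm]
      fin_cases i
      · refine ⟨0, ?_⟩
        change -(D * (C (1 : ℤ) * UP a f 0)) - vp D a f 1 = 0 * UP a f 1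
        rw [vp_one, C_1]
        ring
      · refine ⟨0, ?_⟩
        change -(D * (C (-1 : ℤ) * UP a f 0)) - vp D a f 2 = 0 * UP a f 2
        rw [vp_two, C_neg, C_1]
        ring
      · refine ⟨-D, ?_⟩
        change -(D * (C (-1 : ℤ) * UP a f 1)) - vp D a f 2 = -D * UP a f 2
        rw [vp_two, C_neg, C_1]
        linear_combination (-D) * hU
    · change ∃ e : ℤ[X], vp (n := fun k => n (pm i k)) D (fun k => sg i k * a (pm i k))
        (fun k => f (pm i k)) 2 - vp D a f (pm i 2) = e * UP a f (pm i 2)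
      rw [vp_two, UP_pm]
      fin_cases i
      · refine ⟨0, ?_⟩
        change D * (C (1 : ℤ) * UP a f 0) - vp D a f 2 = 0 * UP a f 2
        rw [vp_two, C_1]
        ring
      · refine ⟨0, ?_⟩
        change D * (C (-1 : ℤ) * UP a f 0) - vp D a f 1 = 0 * UP a f 1
        rw [vp_one, C_neg, C_1]
        ring
      · refine ⟨0, ?_⟩
        change D * (C (-1 : ℤ) * UP a f 1) - vp D a f 0 = 0 * UP a f 0
        rw [vp_zero, C_neg, C_1]
        ring
  obtain ⟨e, he⟩ := hdiv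
  have h2 : ∀ x : Fin (n (pm i k)), SqM (f (pm i k) x)
      (vp (n := fun k => n (pm i k)) D (fun k => sg i k * a (pm i k))
        (fun k => f (pm i k)) k) ↔ SqM (f (pm i k) x) (vp D a f (pm i k)) := by
    intro x
    apply sqM_congr
    rw [he]
    unfold UP
    exact Dvd.dvd.mul_left (Dvd.dvd.mul_left (dvd_prod_of_mem _ (mem_univ x)) _) _
  have h3 : (univ.filter (fun x : Fin (n (pm i k)) => SqM (f (pm i k) x)
      (vp (n := fun k => n (pm i k)) D (fun k => sg i k * a (pm i k))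
        (fun k => f (pm i k)) k))).card =
      (univ.filter (fun x => SqM (f (pm i k) x) (vp D a f (pm i k)))).card := by
    congr 1
    exact filter_congr fun x _ => h2 x
  have h4 := sum_pm (n := n) i
  change 2 * n (pm i k) + _ ≤ n (pm i 0) + n (pm i 1) + n (pm i 2)
  rw [h3, h4]
  exact h1

/-- the constants -/
noncomputable def kap (a : Fin 3 → ℤ) (f : ∀ k : Fin 3, Fin (n k) → ℤ[X]) (c : ℤ)
    (g : Fin m → ℤ[X]) (i : Fin 3) : ℝ :=
  sc (n := fun k => n (pm i k)) (fun k => sg i k * a (pm i k)) (fun k => f (pm i k)) c g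

/-- **almost all members of a pencil** -/
theorem pen (a : Fin 3 → ℤ) (f : ∀ k : Fin 3, Fin (n k) → ℤ[X]) (c : ℤ) (g : Fin m → ℤ[X])
    (ha : ∀ k, a k ≠ 0) (hc : c ≠ 0) (hf : Irr (allf g f))
    (hU : UP a f 0 - UP a f 1 = UP a f 2)
    (hn : (∀ k, 2 * n k < n 0 + n 1 + n 2) ∨ Bal (DG c g) a f) (δ ε : ℝ) (L : ℕ)
    (hδ : 0 < δ) (hε : 0 < ε) :
    ∃ R M0 : ℕ, ∀ (N : ℤ) (M : ℕ), M0 ≤ M → |N| ≤ (M : ℤ) ^ L →
      ∃ T : Finset ℤ, (T.card : ℝ) ≤ ε * M ∧ ∀ t ∈ Ioc N (N + (M : ℤ)), t ∉ T → ∀ i,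
        OkS ((kap a f c g i - δ) * Real.log (Real.log M))
          ((kap a f c g i + δ) * Real.log (Real.log M)) R
          (tri i ((DG c g * UP a f 0).eval t) ((DG c g * UP a f 1).eval t)) := by
  classical
  have h1 := fun i => pen1 (n := fun k => n (pm i k)) (fun k => sg i k * a (pm i k))
    (fun k => f (pm i k)) c g (fun k => mul_ne_zero (sg_ne i k) (ha _)) hc (irr_pm hf i)
    (hU_pm hU i) (by
      rcases hn with hn | hn
      · left
        intro k
        have h4 := sum_pm (n := n) i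
        change 2 * n (pm i k) < n (pm i 0) + n (pm i 1) + n (pm i 2)
        rw [h4]
        exact hn _
      · exact Or.inr (bal_pm hU hn i)) δ (ε / 3) L hδ (by positivity)
  choose R M0 h using h1
  refine ⟨∑ i, R i, ∑ i, M0 i, fun N M hM hN => ?_⟩
  have hMi : ∀ i, M0 i ≤ M := fun i =>
    (single_le_sum (f := fun i => M0 i) (fun _ _ => Nat.zero_le _) (mem_univ i)).trans hM
  have hRi : ∀ i, R i ≤ ∑ i, R i := fun i =>
    single_le_sum (f := fun i => R i) (fun _ _ => Nat.zero_le _) (mem_univ i)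
  have hT := fun i => h i N M (hMi i) hN
  choose T hT1 hT2 using hT
  refine ⟨univ.biUnion T, ?_, fun t ht hn i => ?_⟩
  · have h1 : ((univ.biUnion T).card : ℝ) ≤ ∑ i, ((T i).card : ℝ) := by
      exact_mod_cast card_biUnion_le
    refine h1.trans ((sum_le_sum fun i _ => hT1 i).trans (le_of_eq ?_))
    rw [sum_const, card_univ, Fintype.card_fin, nsmul_eq_mul]
    push_cast
    ring
  · have h2 := hT2 i t ht fun h' => hn (mem_biUnion.2 ⟨i, mem_univ _, h'⟩)
    rw [tri_pm hU] at h2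
    exact h2.mono le_rfl le_rfl (hRi i)

end

end Pool.Agent.R431.NO
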